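import Pool.Agent.V11251.DP
import Pool.Agent.V11251.DW.Nat
import Pool.Agent.V11251.DW.Oag
import Pool.Agent.V11251.DW.GermRC

set_option autoImplicit false
set_option linter.unusedVariables false
set_option linter.unusedSectionVars false

universe u

open FirstOrder

namespace Pool.Agent.Results.MP_d02918_lc.NoUniformBound

open Pool.Agent.V11251 Pool.Agent.V11251.DW

/-- Function symbols `0, 1, -, +, ·`. -/
inductive OFun : ℕ → Type
  | zero : OFun 0
  | one : OFun 0
  | neg : OFun 1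
  | add : OFun 2
  | mul : OFun 2

/-- The relation symbol `<`. -/
inductive ORel : ℕ → Type
  | lt : ORel 2

/-- The language of ordered rings. -/
def Lor : FirstOrder.Language.{0, 0} := ⟨OFun, ORel⟩

/-- An ordered field as a structure in the language of ordered rings. -/
instance orStr (K : Type u) [Field K] [LinearOrder K] : Lor.Structure K where
  funMap := fun f v => match f, v with
    | OFun.zero, _ => 0
    | OFun.one, _ => 1
    | OFun.neg, v => - v 0
    | OFun.add, v => v 0 + v 1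
    | OFun.mul, v => v 0 * v 1
  RelMap := fun R v => match R, v with
    | ORel.lt, v => v 0 < v 1

section defs

variable (K : Type u) [Field K] [LinearOrder K] [IsStrictOrderedRing K]

/-- The ordered abelian group `v_nat(K^×)`: the value group of the natural valuation ring
`natRing K = {x | ∃ n : ℕ, |x| ≤ n}`, written additively and with `v x ≤ v y` if and only if `y`
belongs to `x · natRing K`. -/
abbrev natGroup : Type u := (Additive ((natRing K).ValueGroup)ˣ)ᵒᵈ

variable {K}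

/-- The natural valuation `v_nat : K^× → v_nat(K^×)`. -/
noncomputable def vnat (x : Kˣ) : natGroup K :=
  OrderDual.toDual (Additive.ofMul (Units.map (nv K).toMonoidWithZeroHom.toMonoidHom x))

/-- `Φ_K(O) = v_nat(O^×)`. -/
def Phi (O : ValuationSubring K) : Set (natGroup K) :=
  {g | ∃ x : Kˣ, (x : K) ∈ O ∧ ((x⁻¹ : Kˣ) : K) ∈ O ∧ vnat x = g}

theorem vnat_mul (x y : Kˣ) : vnat (x * y) = vnat x + vnat y := by
  unfold vnat
  rw [map_mul]
  rfl

theorem vnat_one : vnat (1 : Kˣ) = 0 := by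
  unfold vnat
  rw [map_one]
  rfl

theorem vnat_inv (x : Kˣ) : vnat x⁻¹ = - vnat x := by
  unfold vnat
  rw [map_inv]
  rfl

theorem vnat_pow (x : Kˣ) (n : ℕ) : vnat (x ^ n) = n • vnat x := by
  induction n with
  | zero => rw [pow_zero, vnat_one, zero_smul]
  | succ n ih => rw [pow_succ, vnat_mul, ih, succ_nsmul]

theorem vnat_le_iff (x y : Kˣ) : vnat x ≤ vnat y ↔ nv K (y : K) ≤ nv K (x : K) := Iff.rfl

theorem vnat_eq_iff (x y : Kˣ) : vnat x = vnat y ↔ nv K (x : K) = nv K (y : K) := by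
  rw [le_antisymm_iff, vnat_le_iff, vnat_le_iff, and_comm, ← le_antisymm_iff]

theorem vnat_surj (g : natGroup K) : ∃ x : Kˣ, vnat x = g := by
  obtain ⟨y, hy⟩ := (natRing K).valuation_surjective
    ((Additive.toMul (OrderDual.ofDual g) : ((natRing K).ValueGroup)ˣ) : (natRing K).ValueGroup)
  have hy0 : y ≠ 0 := by
    rintro rfl
    rw [map_zero] at hy
    exact Units.ne_zero _ hy.symm
  refine ⟨Units.mk0 y hy0, ?_⟩
  have : Units.map (nv K).toMonoidWithZeroHom.toMonoidHom (Units.mk0 y hy0) =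
      Additive.toMul (OrderDual.ofDual g) := Units.ext hy
  unfold vnat
  rw [this]
  rfl

end defs

section definable

variable {K : Type u} [Field K] [LinearOrder K] {A : Set K} {α : Type}

theorem tf_one : TF Lor A (fun _ : α → K => (1 : K)) :=
  TF.fun₀ (L := Lor) OFun.one 1 (fun v => rfl)

theorem tf_add {g h : (α → K) → K} (hg : TF Lor A g) (hh : TF Lor A h) :
    TF Lor A (fun w => g w + h w) :=
  TF.fun₂ (L := Lor) OFun.add (fun a b => a + b) (fun v => rfl) hg hh

theorem tf_mul {g h : (α → K) → K} (hg : TF Lor A g) (hh : TF Lor A h) :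
    TF Lor A (fun w => g w * h w) :=
  TF.fun₂ (L := Lor) OFun.mul (fun a b => a * b) (fun v => rfl) hg hh

theorem dp_lt {g h : (α → K) → K} (hg : TF Lor A g) (hh : TF Lor A h) :
    DP Lor A (fun w => g w < h w) := by
  obtain ⟨s, hs⟩ := hg
  obtain ⟨t, ht⟩ := hh
  refine ⟨Language.Relations.formula₂ (L := Lor) ORel.lt s t, fun v => ?_⟩
  rw [Language.Formula.realize_rel₂, hs, ht]
  rfl

end definable

section construction

variable {R : Type u} [Field R] [LinearOrder R] [IsStrictOrderedRing R] (K L : Subfield R) (t : R)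

theorem pow_mul_le {V : Type u} [LinearOrderedCommGroupWithZero V] {c : V} (a b : V)
    (ha : ∀ n : ℕ, a ^ n ≤ c) (hb : ∀ n : ℕ, b ^ n ≤ c) (n : ℕ) : (a * b) ^ n ≤ c := by
  rcases le_total a b with h1 | h1
  · have : (a * b) ^ n ≤ b ^ (2 * n) := by
      rw [pow_mul, pow_two]
      exact pow_le_pow_left₀ zero_le (mul_le_mul_left h1 b) n
    exact this.trans (hb _)
  · have : (a * b) ^ n ≤ a ^ (2 * n) := by
      rw [pow_mul, pow_two]
      exact pow_le_pow_left₀ zero_le (mul_le_mul_right h1 a) n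
    exact this.trans (ha _)

/-- the valuation rings -/
def Oi (ht : 1 < nv R t) : ValuationSubring K where
  carrier := {x | ∃ a ∈ L, (∀ n : ℕ, nv R a ^ n ≤ nv R t) ∧ |(x : R)| ≤ |a|}
  mul_mem' := by
    rintro x y ⟨a, ha, hat, hxa⟩ ⟨b, hb, hbt, hyb⟩
    refine ⟨a * b, L.mul_mem ha hb, ?_, ?_⟩
    · rw [map_mul]
      exact pow_mul_le _ _ hat hbt
    · rw [abs_mul]
      show |(x : R) * y| ≤ _
      rw [abs_mul]
      exact mul_le_mul hxa hyb (abs_nonneg _) (abs_nonneg _)
  one_mem' := ⟨1, L.one_mem, fun n => by rw [map_one, one_pow]; exact ht.le, le_rfl⟩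
  add_mem' := by
    have key : ∀ x y : K, ∀ a b : R, b ∈ L → (∀ n : ℕ, nv R b ^ n ≤ nv R t) → |(x : R)| ≤ |a| →
        |(y : R)| ≤ |b| → |a| ≤ |b| →
        ∃ a ∈ L, (∀ n : ℕ, nv R a ^ n ≤ nv R t) ∧ |((x + y : K) : R)| ≤ |a| := by
      intro x y a b hb hbt hxa hyb hab
      refine ⟨2 * b, ?_, ?_, ?_⟩
      · rw [two_mul]; exact L.add_mem hb hb
      · have h2 : nv R (2 : R) = 1 := by
          have := nv_int (K := R) (n := 2) (by norm_num)
          simpa using this
        rw [map_mul, h2, one_mul]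
        exact hbt
      · rw [abs_mul, abs_two, two_mul]
        exact (abs_add_le (x : R) y).trans (add_le_add (hxa.trans hab) hyb)
    rintro x y ⟨a, ha, hat, hxa⟩ ⟨b, hb, hbt, hyb⟩
    rcases le_total |a| |b| with h | h
    · exact key x y a b hb hbt hxa hyb h
    · have := key y x b a ha hat hyb hxa h
      rwa [add_comm] at this
  zero_mem' := ⟨0, L.zero_mem, fun n => by
    rw [map_zero]
    exact (pow_le_one₀ le_rfl zero_le_one).trans ht.le, le_rfl⟩
  neg_mem' := by
    rintro x ⟨a, ha, hat, hxa⟩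
    exact ⟨a, ha, hat, by
      show |-(x : R)| ≤ _
      rwa [abs_neg]⟩
  mem_or_inv_mem' := by
    intro x
    rcases le_total |(x : R)| 1 with h | h
    · exact Or.inl ⟨1, L.one_mem, fun n => by rw [map_one, one_pow]; exact ht.le, by rwa [abs_one]⟩
    · refine Or.inr ⟨1, L.one_mem, fun n => by rw [map_one, one_pow]; exact ht.le, ?_⟩
      show |(x : R)⁻¹| ≤ _
      rw [abs_inv, abs_one]
      exact inv_le_one_of_one_le₀ h

theorem mem_Oi (ht : 1 < nv R t) (x : K) : x ∈ Oi K L t ht ↔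
    ∃ a ∈ L, (∀ n : ℕ, nv R a ^ n ≤ nv R t) ∧ |(x : R)| ≤ |a| := Iff.rfl

theorem nv_le_of_mem (ht : 1 < nv R t) (x : K) (hx : x ∈ Oi K L t ht) (n : ℕ) :
    nv R (x : R) ^ n ≤ nv R t := by
  obtain ⟨a, ha, hat, hxa⟩ := hx
  exact (pow_le_pow_left₀ zero_le (nv_mono hxa) n).trans (hat n)

theorem Oi_convex (ht : 1 < nv R t) : (Oi K L t ht : Set K).OrdConnected := by
  refine ⟨?_⟩
  rintro x ⟨a, ha, hat, hxa⟩ y ⟨b, hb, hbt, hyb⟩ z ⟨hz1, hz2⟩
  have h1 : (x : R) ≤ z := hz1
  have h2 : (z : R) ≤ y := hz2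
  have h3 : |(z : R)| ≤ max |(x : R)| |(y : R)| := by
    rw [abs_le]
    constructor
    · have : -|(x : R)| ≤ x := neg_abs_le _
      have := le_max_left |(x : R)| |(y : R)|
      linarith
    · have : (y : R) ≤ |(y : R)| := le_abs_self _
      have := le_max_right |(x : R)| |(y : R)|
      linarith
  rcases max_choice |(x : R)| |(y : R)| with h | h
  · exact ⟨a, ha, hat, by rw [h] at h3; exact h3.trans hxa⟩
  · exact ⟨b, hb, hbt, by rw [h] at h3; exact h3.trans hyb⟩

theorem nv_sub_iff (x y : K) : nv K x ≤ nv K y ↔ nv R (x : R) ≤ nv R (y : R) := by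
  rw [nv_le_iff, nv_le_iff]
  rfl

variable {J : Type u} [LinearOrder J] {s : J → R}

/-- the key equivalence -/
theorem key_iff (hsqrt : ∀ x : R, 0 ≤ x → ∃ y, x = y * y)
    (hs1 : ∀ j, ∀ n : ℕ, (n : R) < s j)
    (hs2 : ∀ i j, i < j → ∀ n : ℕ, s i ^ n < s j) (hLK : L ≤ K) (hP2 : P2 L K)
    (hsL : ∀ j, s j ∈ L) (hInG : ∀ x ∈ L, x ≠ 0 → InG s x)
    (hLsq : ∀ b : R, b ^ 2 ∈ L → nv R b = 1 → b ∈ L) (i : J) (a : R) (haK : a ∈ K) :
    (∃ g ∈ K, g ^ 2 = 1 + (s i)⁻¹ * a ^ 4) ↔ a ∈ L ∧ ∀ n : ℕ, nv R a ^ n ≤ nv R (s i) := by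
  have h1 := chain_one hs1
  have h2 := chain_lt hs1 hs2
  have hsi : s i ≠ 0 := (by simpa using hs1 i 0 : 0 < s i).ne'
  have hsi0 : 0 < s i := by simpa using hs1 i 0
  have hval : nv R (1 + (s i)⁻¹ * a ^ 4) = max 1 ((nv R (s i))⁻¹ * nv R a ^ 4) := by
    rw [nv_add_same (by positivity), map_one, map_mul, map_inv₀, map_pow]
  constructor
  · rintro ⟨g, hg, hga⟩
    obtain ⟨haL, hgL⟩ := hP2 (s i)⁻¹ (L.inv_mem (hsL i)) (inv_ne_zero hsi) a haK g hg hga
    refine ⟨haL, ?_⟩
    by_cases ha0 : a = 0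
    · intro n
      rw [ha0, map_zero]
      exact (pow_le_one₀ le_rfl zero_le_one).trans (h1 i).le
    obtain ⟨m, hm⟩ := hInG a haL ha0
    have h4 : nv R a ^ 4 ≤ nv R (s i) := by
      by_contra hcon
      push Not at hcon
      have hg0 : g ≠ 0 := by
        rintro rfl
        have : (0 : R) < 1 + (s i)⁻¹ * a ^ 4 := by positivity
        rw [← hga] at this
        norm_num at this
      have h5 : InG s (a * a * g⁻¹) :=
        InG_mul hs1 (InG_mul hs1 ⟨m, hm⟩ ⟨m, hm⟩) (InG_inv hs1 (hInG g hgL hg0))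
      obtain ⟨k, hk⟩ := h5
      apply F1 h1 h2 k i
      rw [← hk]
      have h6 : nv R g ^ 2 = (nv R (s i))⁻¹ * nv R a ^ 4 := by
        rw [← map_pow, hga, hval, max_eq_right]
        rw [inv_mul_eq_div, one_le_div₀ (zero_lt_iff.2 (nv_ne_zero hsi))]
        exact hcon.le
      rw [map_mul, map_mul, map_inv₀]
      have h7 : nv R g ≠ 0 := nv_ne_zero hg0
      have h8 : nv R a ≠ 0 := nv_ne_zero ha0
      have h9 : nv R (s i) ≠ 0 := nv_ne_zero hsi
      rw [mul_pow, inv_pow, h6, mul_inv, inv_inv]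
      have h10 : (nv R a * nv R a) ^ 2 = nv R a ^ 4 := by
        rw [← pow_two, ← pow_mul]
      rw [h10, mul_left_comm, mul_inv_cancel₀ (pow_ne_zero 4 h8), mul_one]
    intro n
    rw [hm] at h4 ⊢
    exact F2 h1 h2 m i h4 n
  · rintro ⟨haL, han⟩
    obtain ⟨b, hb⟩ := hsqrt (1 + (s i)⁻¹ * a ^ 4) (by positivity)
    have hb2 : b ^ 2 = 1 + (s i)⁻¹ * a ^ 4 := by rw [hb]; ring
    refine ⟨b, hLK (hLsq b ?_ ?_), hb2⟩
    · rw [hb2]
      exact L.add_mem L.one_mem (L.mul_mem (L.inv_mem (hsL i)) (L.pow_mem haL 4))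
    · have h3 : nv R b ^ 2 = 1 := by
        rw [← map_pow, hb2, hval, max_eq_left]
        rw [inv_mul_eq_div, div_le_one₀ (zero_lt_iff.2 (nv_ne_zero hsi))]
        exact han 4
      rcases lt_trichotomy (nv R b) 1 with h | h | h
      · exact absurd h3 (pow_lt_one₀ zero_le h (by norm_num)).ne
      · exact h
      · exact absurd h3 (one_lt_pow₀ h (by norm_num)).ne'

end construction

/-- For every cardinal `κ` there is an ordered field `K` with more than `κ` non-trivial convex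
valuation rings that are definable in the ordered field `K` with parameters, but whose convex
subgroup `Φ_K(O) = v_nat(O^×)` is not definable, with parameters, in the ordered group
`v_nat(K^×)`. -/
theorem result (κ : Cardinal.{u}) :
    ∃ (K : Type u) (_ : Field K) (_ : LinearOrder K) (_ : IsStrictOrderedRing K),
      κ < Cardinal.mk {O : ValuationSubring K // O ≠ ⊤ ∧ (O : Set K).OrdConnected ∧
        (Set.univ : Set K).Definable₁ Lor (O : Set K) ∧
        ¬ (Set.univ : Set (natGroup K)).Definable₁ Log (Phi O)} := by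
  classical
  set μ : Cardinal.{u} := Order.succ (max κ Cardinal.aleph0) with hμ
  have hμ0 : Cardinal.aleph0 < μ := (le_max_right _ _).trans_lt (Order.lt_succ _)
  have hμκ : κ < μ := (le_max_left _ _).trans_lt (Order.lt_succ _)
  let J₀ : Type u := μ.ord.ToType
  have hJ₀ : Cardinal.mk J₀ = μ := Cardinal.mk_ord_toType _
  let J : Type u := WithBot J₀
  have hJ : Cardinal.mk J = μ := by
    show Cardinal.mk (Option J₀) = μ
    rw [Cardinal.mk_option, hJ₀, Cardinal.add_one_eq hμ0.le]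
  let X : Type u := (Order.succ μ).ord.ToType
  have hX : Cardinal.mk X = Order.succ μ := Cardinal.mk_ord_toType _
  haveI : Infinite (Lex (J ⊕ X)) := by
    rw [Cardinal.infinite_iff]
    have : Cardinal.mk (Lex (J ⊕ X)) = Cardinal.mk (J ⊕ X) := rfl
    rw [this, Cardinal.mk_sum, Cardinal.lift_id, Cardinal.lift_id, hJ]
    exact hμ0.le.trans (self_le_add_right _ _)
  obtain ⟨R, iF, iL, iS, hRC, σ, hσ1, hσ2⟩ := exists_chain (Lex (J ⊕ X))
  let s : J → R := fun j => σ (toLex (Sum.inl j))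
  have hs1 : ∀ j, ∀ n : ℕ, (n : R) < s j := fun j n => hσ1 _ n
  have hs2 : ∀ i j, i < j → ∀ n : ℕ, s i ^ n < s j := fun i j h n =>
    hσ2 _ _ (Sum.Lex.inl_lt_inl_iff.2 h) n
  have h1 := chain_one hs1
  have h2 := chain_lt hs1 hs2
  have hσm : StrictMono σ := fun i j h => by simpa using hσ2 i j h 1
  have hcardR : μ < Cardinal.mk R := by
    have e1 : Cardinal.mk X ≤ Cardinal.mk R :=
      Cardinal.mk_le_of_injective (f := fun x : X => σ (toLex (Sum.inr x)))
        fun x y h => Sum.inr_injective (toLex.injective (hσm.injective h))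
    rw [hX] at e1
    exact (Order.lt_succ μ).trans_le e1
  -- the small relatively algebraically closed subfield
  let F₀ : Subfield R := Subfield.closure (Set.range s)
  let R₁ : Subfield R := (algebraicClosure F₀ R).toSubfield
  have hmemR₁ : ∀ x : R, x ∈ R₁ ↔ IsAlgebraic F₀ x := fun x => mem_algebraicClosure_iff
  have hR₁ : ∀ b : R, b ^ 2 ∈ R₁ → b ∈ R₁ := by
    intro b hb
    rw [hmemR₁] at hb ⊢
    exact IsAlgebraic.of_pow (by norm_num) hb
  have hsR₁ : ∀ j, s j ∈ R₁ := by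
    intro j
    rw [hmemR₁]
    exact isAlgebraic_algebraMap (⟨s j, Subfield.subset_closure ⟨j, rfl⟩⟩ : F₀)
  have hcardR₁ : Cardinal.mk R₁ ≤ μ := by
    have e1 : Cardinal.mk {x : R // IsAlgebraic F₀ x} ≤ max (Cardinal.mk F₀) Cardinal.aleph0 :=
      Algebraic.cardinalMk_le_max F₀ R
    have e2 : Cardinal.mk F₀ ≤ max (Cardinal.mk (Set.range s)) Cardinal.aleph0 :=
      Subfield.cardinalMk_closure_le_max _
    have e3 : Cardinal.mk (Set.range s) ≤ μ := hJ ▸ Cardinal.mk_range_le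
    have e4 : Cardinal.mk R₁ ≤ Cardinal.mk {x : R // IsAlgebraic F₀ x} :=
      Cardinal.mk_le_of_injective (f := fun x : R₁ => (⟨x, (hmemR₁ x).1 x.2⟩ :
        {x : R // IsAlgebraic F₀ x})) fun x y h => Subtype.ext (congrArg (fun z => z.1) h)
    exact e4.trans (e1.trans (max_le (e2.trans (max_le e3 hμ0.le)) hμ0.le))
  obtain ⟨L, hLR₁, hsL, hInG, hLsq⟩ := exists_L hs1 hs2 R₁ hR₁ hsR₁
  have hcardL : Cardinal.mk L < Cardinal.mk R :=
    ((Cardinal.mk_le_of_injective (Subfield.inclusion hLR₁).injective).trans hcardR₁).trans_lt hcardR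
  obtain ⟨K, hLK, hP2, hdense⟩ := exists_dense' L (hμ0.trans hcardR) hcardL
  have hsK : ∀ j, s j ∈ K := fun j => hLK (hsL j)
  have hs0 : ∀ j, s j ≠ 0 := fun j => (by simpa using hs1 j 0 : 0 < s j).ne'
  have hkey := fun i a haK => key_iff K L (fun x hx => by
    obtain ⟨y, hy⟩ := IsRealClosed.nonneg_iff_isSquare.1 hx
    exact ⟨y, hy⟩) hs1 hs2 hLK hP2 hsL hInG hLsq i a haK
  -- divisibility of the value group of `K`
  have hdiv : ∀ n : ℤ, n ≠ 0 → ∀ g : natGroup K, ∃ h : natGroup K, n • h = g := by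
    have hnat : ∀ m : ℕ, m ≠ 0 → ∀ g : natGroup K, ∃ h : natGroup K, m • h = g := by
      intro m hm g
      obtain ⟨x, rfl⟩ := vnat_surj g
      obtain ⟨r, hr⟩ := IsRealClosed.exists_eq_pow_of_nonneg (abs_nonneg ((x : K) : R)) hm
      have hx0 : ((x : K) : R) ≠ 0 := fun h => x.ne_zero (Subtype.ext h)
      have hr0 : r ≠ 0 := by
        rintro rfl
        rw [zero_pow hm] at hr
        exact hx0 (abs_eq_zero.1 hr)
      have hrpos : 0 < |r| := abs_pos.2 hr0
      have hr' : |((x : K) : R)| = |r| ^ m := by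
        rw [← abs_pow, ← hr, abs_abs]
      obtain ⟨z, hzK, hz1, hz2⟩ := hdense |r| (2 * |r|) (by linarith)
      have hz0 : (⟨z, hzK⟩ : K) ≠ 0 := by
        intro h
        have : z = 0 := congrArg Subtype.val h
        linarith
      have hzpos : 0 < z := hrpos.trans hz1
      refine ⟨vnat (Units.mk0 ⟨z, hzK⟩ hz0), ?_⟩
      rw [← vnat_pow, vnat_eq_iff]
      apply le_antisymm
      · rw [nv_sub_iff, nv_le_iff]
        refine ⟨2 ^ m, ?_⟩
        show |z ^ m| ≤ _
        rw [hr', abs_pow, abs_of_pos hzpos]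
        push_cast
        rw [← mul_pow]
        exact pow_le_pow_left₀ hzpos.le hz2.le m
      · rw [nv_sub_iff]
        apply nv_mono
        show _ ≤ |z ^ m|
        rw [hr', abs_pow, abs_of_pos hzpos]
        exact pow_le_pow_left₀ hrpos.le hz1.le m
    intro n hn g
    obtain ⟨m, rfl | rfl⟩ := n.eq_nat_or_neg
    · obtain ⟨h, hh⟩ := hnat m (by rintro rfl; exact hn rfl) g
      exact ⟨h, by rw [natCast_zsmul]; exact hh⟩
    · obtain ⟨h, hh⟩ := hnat m (by rintro rfl; exact hn rfl) g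
      exact ⟨-h, by rw [neg_smul_neg, natCast_zsmul]; exact hh⟩
  refine ⟨K, inferInstance, inferInstance, inferInstance, ?_⟩
  -- the valuation rings
  let O : J → ValuationSubring K := fun j => Oi K L (s j) (h1 j)
  have hOlt : ∀ i j, i < j → (⟨s i, hsK i⟩ : K) ∈ O j := fun i j h =>
    ⟨s i, hsL i, fun n => (h2 i j h n).le, le_rfl⟩
  have hOnot : ∀ i, (⟨s i, hsK i⟩ : K) ∉ O i := by
    intro i hmem
    have := nv_le_of_mem K L (s i) (h1 i) _ hmem 2
    rw [pow_two] at this
    have h3 : nv R (s i) < nv R (s i) * nv R (s i) := by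
      calc nv R (s i) = nv R (s i) * 1 := (mul_one _).symm
        _ < nv R (s i) * nv R (s i) := mul_lt_mul_of_pos_left (h1 i) (zero_lt_iff.2
          (nv_ne_zero (hs0 i)))
    exact absurd h3 (not_lt.2 this)
  have hOinj : Function.Injective O := by
    intro i j hij
    rcases lt_trichotomy i j with h | h | h
    · exact absurd (hij ▸ hOlt i j h) (hOnot i)
    · exact h
    · exact absurd (hij ▸ hOlt j i h) (hOnot j)
  have hOdef : ∀ i, (Set.univ : Set K).Definable₁ Lor (O i : Set K) := by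
    intro i
    have : DP Lor (Set.univ : Set K) (fun v : Fin 1 → K => ∃ a : K,
        (∃ g : K, g * g = 1 + (⟨s i, hsK i⟩ : K)⁻¹ * (a * a * (a * a))) ∧
          ¬ (a * a < v 0 * v 0)) := by
      refine DP.ex (DP.and (DP.ex (DP.eq ?_ ?_)) (DP.not (dp_lt ?_ ?_)))
      · exact tf_mul (TF.var none) (TF.var none)
      · exact tf_add tf_one (tf_mul (TF.const (Set.mem_univ _))
          (tf_mul (tf_mul (TF.var (some none)) (TF.var (some none)))
          (tf_mul (TF.var (some none)) (TF.var (some none)))))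
      · exact tf_mul (TF.var none) (TF.var none)
      · exact tf_mul (TF.var (some 0)) (TF.var (some 0))
    refine (this.congr fun v => ?_).definable
    show _ ↔ ∃ a ∈ L, (∀ n : ℕ, nv R a ^ n ≤ nv R (s i)) ∧ |((v 0 : K) : R)| ≤ |a|
    constructor
    · rintro ⟨a, ⟨g, hg⟩, hav⟩
      have hg' : (g : R) ^ 2 = 1 + (s i)⁻¹ * (a : R) ^ 4 := by
        have := congrArg Subtype.val hg
        have h3 : (g : R) * g = 1 + (s i)⁻¹ * ((a : R) * a * (a * a)) := this
        linear_combination h3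
      obtain ⟨haL, han⟩ := (hkey i a a.2).1 ⟨g, g.2, hg'⟩
      refine ⟨a, haL, han, ?_⟩
      rw [← sq_le_sq, pow_two, pow_two]
      exact not_lt.1 hav
    · rintro ⟨a, haL, han, hav⟩
      obtain ⟨g, hg, hga⟩ := (hkey i a (hLK haL)).2 ⟨haL, han⟩
      refine ⟨⟨a, hLK haL⟩, ⟨⟨g, hg⟩, Subtype.ext ?_⟩, ?_⟩
      · show g * g = 1 + (s i)⁻¹ * (a * a * (a * a))
        linear_combination hga
      · rw [not_lt]
        show ((v 0 : K) : R) * (v 0 : K) ≤ a * a
        rw [← pow_two, ← pow_two, sq_le_sq]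
        exact hav
  have hOnd : ∀ i : J₀, ¬ (Set.univ : Set (natGroup K)).Definable₁ Log
      (Phi (O ((i : WithBot J₀) : J))) := by
    intro i hdef
    set j : J := ((i : WithBot J₀) : J) with hj
    have hbot : (⊥ : WithBot J₀) < j := WithBot.bot_lt_coe i
    have hU : ∀ k : J, (⟨s k, hsK k⟩ : K) ≠ 0 := fun k h => hs0 k (congrArg Subtype.val h)
    let b : Kˣ := (Units.mk0 _ (hU (⊥ : WithBot J₀)))⁻¹
    have hb0 : 0 < vnat b := by
      rw [← vnat_one, lt_iff_not_ge, vnat_le_iff, nv_sub_iff, not_le]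
      show nv R (s (⊥ : WithBot J₀))⁻¹ < nv R 1
      rw [map_inv₀, map_one]
      exact inv_lt_one_of_one_lt₀ (h1 _)
    haveI : Nontrivial (natGroup K) := ⟨_, _, hb0.ne⟩
    have hbO : vnat b ∈ Phi (O j) := by
      refine ⟨b, ?_, ?_, rfl⟩
      · refine ⟨1, L.one_mem, fun n => by rw [map_one, one_pow]; exact (h1 j).le, ?_⟩
        show |(s (⊥ : WithBot J₀))⁻¹| ≤ |1|
        rw [abs_one, abs_inv]
        apply inv_le_one_of_one_le₀
        have : (1 : R) < s (⊥ : WithBot J₀) := by simpa using hs1 (⊥ : WithBot J₀) 1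
        exact this.le.trans (le_abs_self _)
      · show ((b⁻¹ : Kˣ) : K) ∈ O j
        have : ((b⁻¹ : Kˣ) : K) = ⟨s (⊥ : WithBot J₀), hsK _⟩ := by
          show (((Units.mk0 _ (hU (⊥ : WithBot J₀)))⁻¹⁻¹ : Kˣ) : K) = _
          rw [inv_inv]
          rfl
        rw [this]
        exact hOlt _ _ hbot
    have hadd : ∀ g ∈ Phi (O j), g + vnat b ∈ Phi (O j) := by
      rintro _ ⟨x, hx, hx', rfl⟩
      obtain ⟨y, hy, hy', hyb⟩ := hbO
      rw [← hyb]
      refine ⟨x * y, (O j).mul_mem _ _ hx hy, ?_, vnat_mul _ _⟩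
      rw [mul_inv]
      exact (O j).mul_mem _ _ hx' hy'
    have hbdd : BddAbove (Phi (O j)) := by
      refine ⟨vnat (Units.mk0 _ (hU j))⁻¹, ?_⟩
      rintro _ ⟨x, hx, hx', rfl⟩
      have h3 := nv_le_of_mem K L (s j) (h1 j) _ hx' 1
      rw [pow_one] at h3
      rw [vnat_le_iff, nv_sub_iff]
      have h4 : nv R (((x⁻¹ : Kˣ) : K) : R) = (nv R ((x : K) : R))⁻¹ := by
        rw [← map_inv₀]
        congr 1
        rw [Units.val_inv_eq_inv_val]
        rfl
      have h5 : nv R (((((Units.mk0 _ (hU j))⁻¹ : Kˣ)) : K) : R) = (nv R (s j))⁻¹ := by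
        rw [← map_inv₀]
        congr 1
      rw [h5]
      rw [h4] at h3
      have hx0 : ((x : K) : R) ≠ 0 := fun h => x.ne_zero (Subtype.ext h)
      exact inv_le_of_inv_le₀ (zero_lt_iff.2 (nv_ne_zero hx0)) h3
    obtain ⟨τ, hτ⟩ := exists_lub hdiv (Phi (O j)) hdef ⟨_, hbO⟩ hbdd
    have h3 : τ - vnat b ∈ upperBounds (Phi (O j)) := by
      intro g hg
      have := hτ.1 (hadd g hg)
      exact le_sub_iff_add_le.2 this
    have h4 := hτ.2 h3
    have h5 : τ - vnat b < τ := sub_lt_self _ hb0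
    exact absurd h5 (not_lt.2 h4)
  refine lt_of_lt_of_le hμκ ?_
  rw [← hJ₀]
  refine Cardinal.mk_le_of_injective (f := fun i : J₀ => (⟨O ((i : WithBot J₀) : J), ?_, ?_, ?_, ?_⟩ :
    {O : ValuationSubring K // O ≠ ⊤ ∧ (O : Set K).OrdConnected ∧
        (Set.univ : Set K).Definable₁ Lor (O : Set K) ∧
        ¬ (Set.univ : Set (natGroup K)).Definable₁ Log (Phi O)})) ?_
  · intro h
    have := hOnot ((i : WithBot J₀) : J)
    rw [h] at this
    exact this trivial
  · exact Oi_convex _ _ _ _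
  · exact hOdef _
  · exact hOnd i
  · intro i j hij
    have := hOinj (congrArg Subtype.val hij)
    exact WithBot.coe_injective this

end Pool.Agent.Results.MP_d02918_lc.NoUniformBound
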